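import Pool.Agent.T2h13.SC.Pell

set_option autoImplicit false

/-!
# Q2 of MP_025f5d_nt

For every prime `p ≡ 7 (mod 8)` the Pell-weighted sum
`T(p) = ∑_{k<p} C(p-1,k) P_k C(2k,k)² / 8^k` is divisible by `p²`.
-/

namespace Pool.Agent.Results.MP_025f5d_nt.PellSevenModEight

open Finset

/-- The Pell numbers `P_0 = 0`, `P_1 = 1`, `P_{n+2} = 2 P_{n+1} + P_n`. -/
def pell : ℕ → ℤ
  | 0 => 0
  | 1 => 1
  | n + 2 => 2 * pell (n + 1) + pell n

/-- The sum `T(p)` of the problem. -/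
def T (p : ℕ) : ℚ :=
  ∑ k ∈ range p, ((p - 1).choose k : ℚ) * ((pell k : ℚ) / 8 ^ k) * ((2 * k).choose k : ℚ) ^ 2

/-- `u ≡ v` modulo `p^m` in the ring of rationals with denominator prime to `p`:
`u - v` is `p^m` times a rational number `n/d` with `p ∤ d`. -/
def Cong (p m : ℕ) (u v : ℚ) : Prop := ∃ (n : ℤ) (d : ℕ), ¬ p ∣ d ∧ u - v = (p : ℚ) ^ m * (n / d)

theorem pell_eq (n : ℕ) : pell n = Pool.Agent.T2h13.SC.pl n ∧ pell (n + 1) = Pool.Agent.T2h13.SC.pl (n + 1) := by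
  induction n with
  | zero => exact ⟨rfl, rfl⟩
  | succ n ih =>
    refine ⟨ih.2, ?_⟩
    rw [pell, Pool.Agent.T2h13.SC.pl, ih.1, ih.2]

/-- **Q2: `T(p) ≡ 0 (mod p²)` for every prime `p ≡ 7 (mod 8)`.** -/
theorem result (p : ℕ) (hp : p.Prime) (h7 : p % 8 = 7) : Cong p 2 (T p) 0 := by
  haveI : Fact p.Prime := ⟨hp⟩
  obtain ⟨c, hc⟩ := Pool.Agent.T2h13.SC.NN_zero p h7
  refine ⟨c, 8 ^ (p - 1), ?_, ?_⟩
  · intro h
    have h8 := hp.dvd_of_dvd_pow h
    have : p ≤ 8 := Nat.le_of_dvd (by norm_num) h8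
    have : p = 7 := by
      interval_cases p <;> omega
    subst this
    omega
  · have h1 : (8 : ℚ) ^ (p - 1) * T p = (Pool.Agent.T2h13.SC.NN p : ℚ) := by
      unfold T Pool.Agent.T2h13.SC.NN
      push_cast
      rw [mul_sum]
      refine sum_congr rfl fun k hk => ?_
      have hk' : k ≤ p - 1 := by have := mem_range.mp hk; omega
      have e : (8 : ℚ) ^ (p - 1) = 8 ^ (p - 1 - k) * 8 ^ k := by
        rw [← pow_add, Nat.sub_add_cancel hk']
      rw [e, (pell_eq k).1]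
      field_simp
    have h2 : (8 : ℚ) ^ (p - 1) ≠ 0 := by positivity
    rw [hc] at h1
    push_cast at h1 ⊢
    rw [sub_zero]
    field_simp
    linear_combination h1

end Pool.Agent.Results.MP_025f5d_nt.PellSevenModEight
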